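import Pool.Agent.Helper96.PB.Defs
import Pool.Agent.Helper70.PH.Num

/-!
# The numbers
-/

set_option autoImplicit false

namespace Pool.Agent.Helper97.PB

open Real
open Pool.Agent.Helper96.PB (errA)

theorem q_ge (w : ℕ) : (10 : ℝ) ^ 12 * (10 ^ 6) ^ w ≤ (10 ^ 12) ^ (w + 1) := by
  rw [pow_succ, mul_comm]
  exact mul_le_mul_of_nonneg_right (pow_le_pow_left₀ (by norm_num) (by norm_num) w) (by norm_num)

theorem q_ge' (w : ℕ) (c : ℝ) (hc0 : 0 ≤ c) (hc : c ≤ 10 ^ 6) : (10 : ℝ) ^ 12 * c ^ w ≤ (10 ^ 12) ^ (w + 1) :=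
  le_trans (mul_le_mul_of_nonneg_left (pow_le_pow_left₀ hc0 hc w) (by norm_num)) (q_ge w)

/-- the exponential beats the polynomial -/
theorem key {m w : ℕ} {ε δ : ℝ} (hε : 0 < ε) (hε1 : ε ≤ 1) (hδ : δ = ε / (w + 2))
    (hm : ((10 : ℝ) ^ 12) ^ (w + 1) / ε ^ 2 ≤ m) :
    1843200 * exp 1 * (w + 1) * (m : ℝ) ^ 2 / δ ^ 2 ≤ (1 + δ / 4) ^ m := by
  have hw0 : (0 : ℝ) ≤ w := Nat.cast_nonneg w
  have hw2 : (0 : ℝ) < w + 2 := by linarith
  have hδ0 : 0 < δ := by rw [hδ]; positivity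
  have hδ1 : δ ≤ 1 / 2 := by
    rw [hδ, div_le_div_iff₀ hw2 (by norm_num)]
    linarith
  set q : ℝ := (10 ^ 12) ^ (w + 1) with hq
  have hq0 : 0 < q := by positivity
  set y : ℝ := m * δ with hy
  have hy0 : 0 ≤ y := by positivity
  -- `1 / δ ≤ y (w + 2) ^ 2 / q`
  have h1 : 1 / δ ≤ y * (w + 2) ^ 2 / q := by
    rw [div_le_div_iff₀ hδ0 hq0, one_mul]
    have h2 : q ≤ m * ε ^ 2 := by rwa [div_le_iff₀ (by positivity)] at hm
    have h3 : y * (w + 2) ^ 2 * δ = m * ε ^ 2 := by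
      rw [hy, hδ]
      field_simp
    rw [h3]
    exact h2
  have h2 : 1 / δ ^ 4 ≤ y ^ 4 * (w + 2) ^ 8 / q ^ 4 := by
    have h3 := pow_le_pow_left₀ (by positivity) h1 4
    calc 1 / δ ^ 4 = (1 / δ) ^ 4 := by rw [div_pow, one_pow]
      _ ≤ _ := h3
      _ = _ := by rw [div_pow, mul_pow, ← pow_mul]
  have h3 : ((w : ℝ) + 1) * (w + 2) ^ 8 ≤ 512 ^ (w + 1) := by
    have h4 : (w : ℝ) + 2 ≤ 2 ^ (w + 1) := by
      have := Nat.lt_two_pow_self (n := w + 1)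
      have h5 : ((w + 1 + 1 : ℕ) : ℝ) ≤ ((2 ^ (w + 1) : ℕ) : ℝ) := by exact_mod_cast this
      push_cast at h5
      linarith
    calc ((w : ℝ) + 1) * (w + 2) ^ 8 ≤ (w + 2) * (w + 2) ^ 8 :=
          mul_le_mul_of_nonneg_right (by linarith) (by positivity)
      _ = (w + 2) ^ 9 := by ring
      _ ≤ (2 ^ (w + 1)) ^ 9 := pow_le_pow_left₀ hw2.le h4 9
      _ = 512 ^ (w + 1) := by rw [← pow_mul, mul_comm, pow_mul]; norm_num
  have h4 : (512 : ℝ) ^ (w + 1) / q ^ 4 ≤ 1 / 10 ^ 40 := by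
    have h5 : q ^ 4 = ((10 : ℝ) ^ 48) ^ (w + 1) := by
      rw [hq, ← pow_mul, mul_comm (w + 1) 4, pow_mul]
      norm_num
    rw [h5, ← div_pow]
    calc ((512 : ℝ) / 10 ^ 48) ^ (w + 1) ≤ (512 / 10 ^ 48) ^ 1 :=
          pow_le_pow_of_le_one (by norm_num) (by norm_num) (by omega)
      _ ≤ 1 / 10 ^ 40 := by norm_num
  have h5 : exp (y / 5) ≤ (1 + δ / 4) ^ m := by
    have h6 : exp (δ / 5) ≤ 1 + δ / 4 := by
      have h2 := Real.abs_exp_sub_one_sub_id_le (x := δ / 5)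
        (by rw [abs_of_pos (by positivity)]; linarith)
      have h3 := (abs_le.mp h2).2
      nlinarith
    calc exp (y / 5) = exp (δ / 5) ^ m := by
          rw [← Real.exp_nat_mul]
          congr 1
          rw [hy]
          ring
      _ ≤ (1 + δ / 4) ^ m := pow_le_pow_left₀ (exp_pos _).le h6 m
  refine le_trans ?_ h5
  have h6 : (y / 5) ^ 6 / (Nat.factorial 6 : ℝ) ≤ exp (y / 5) :=
    pow_div_factorial_le_exp (y / 5) (by positivity) 6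
  refine le_trans ?_ h6
  have hm2 : (m : ℝ) ^ 2 / δ ^ 2 = y ^ 2 * (1 / δ ^ 4) := by
    rw [hy]
    field_simp
  have he : exp 1 ≤ 3 := by linarith [exp_one_lt_d9]
  calc 1843200 * exp 1 * (w + 1) * (m : ℝ) ^ 2 / δ ^ 2
      = 1843200 * exp 1 * (w + 1) * ((m : ℝ) ^ 2 / δ ^ 2) := by ring
    _ = 1843200 * exp 1 * (w + 1) * (y ^ 2 * (1 / δ ^ 4)) := by rw [hm2]
    _ ≤ 1843200 * 3 * (w + 1) * (y ^ 2 * (y ^ 4 * (w + 2) ^ 8 / q ^ 4)) := by gcongr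
    _ = 5529600 * y ^ 6 * ((((w : ℝ) + 1) * (w + 2) ^ 8) / q ^ 4) := by ring
    _ ≤ 5529600 * y ^ 6 * (512 ^ (w + 1) / q ^ 4) := by gcongr
    _ ≤ 5529600 * y ^ 6 * (1 / 10 ^ 40) := by gcongr
    _ ≤ (y / 5) ^ 6 / (Nat.factorial 6 : ℝ) := by
        have : (Nat.factorial 6 : ℝ) = 720 := by norm_num [Nat.factorial]
        rw [this, div_pow]
        have h7 : 0 ≤ y ^ 6 := by positivity
        rw [div_div, le_div_iff₀ (by norm_num)]
        nlinarith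

theorem term3' {m a w S : ℕ} {δ r η : ℝ} (hδ : 0 < δ) (ha : (10 : ℝ) ^ 8 ≤ a)
    (hS : S ≤ 2 ^ a) (hr : 0 < r) (hr1 : 1 / r ≤ 4 / δ) (hη : 1 + δ / 4 ≤ η)
    (h : 1843200 * exp 1 * (w + 1) * (m : ℝ) ^ 2 / δ ^ 2 ≤ (1 + δ / 4) ^ m) :
    errA (8 * a * (w + 1)) 15 m a a S r η ≤ 8 * a * (1 / 4) ^ a := by
  have ha0 : (0 : ℝ) < a := lt_of_lt_of_le (by norm_num) ha
  have hw : (0 : ℝ) < w + 1 := by positivity
  have hb : (0 : ℝ) < (1 + δ / 4) ^ m := by positivity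
  have h1 : ((8 * a * (w + 1)).choose a : ℝ) ≤ (8 * (w + 1)) ^ a * exp 1 ^ a := by
    refine (Nat.choose_le_pow_div (α := ℝ) a (8 * a * (w + 1))).trans ?_
    have h2 : (a : ℝ) ^ a / a.factorial ≤ exp a := pow_div_factorial_le_exp (a : ℝ) ha0.le a
    rw [← Real.exp_nat_mul, mul_one]
    push_cast
    calc (8 * (a : ℝ) * (w + 1)) ^ a / a.factorial = (8 * (w + 1)) ^ a * ((a : ℝ) ^ a / a.factorial) := by
          rw [show (8 * (a : ℝ) * (w + 1)) = (8 * (w + 1)) * a by ring, mul_pow]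
          ring
      _ ≤ (8 * (w + 1)) ^ a * exp a := mul_le_mul_of_nonneg_left h2 (by positivity)
  have hS' : (S : ℝ) ≤ 2 ^ a := by exact_mod_cast hS
  have h2a : (1 : ℝ) ≤ 2 ^ a := one_le_pow₀ (by norm_num)
  have hη0 : 0 < η := lt_of_lt_of_le (by positivity) hη
  have hη' : (1 + δ / 4) ^ (m * a) ≤ η ^ (m * a) := pow_le_pow_left₀ (by positivity) hη _
  unfold errA
  have h3 : (a : ℝ) * ((8 * a * (w + 1)).choose a : ℝ) * ((((15 : ℕ) : ℝ) * (m : ℝ)) ^ a) ^ 2 * (S : ℝ) ^ 2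
      * (2 ^ a + 1) ^ 2 * (2 * (1 / r) ^ (2 * a) / η ^ (m * a)) ≤ 8 * a * (1 / 4) ^ a := by
    calc (a : ℝ) * ((8 * a * (w + 1)).choose a : ℝ) * ((((15 : ℕ) : ℝ) * (m : ℝ)) ^ a) ^ 2 * (S : ℝ) ^ 2
      * (2 ^ a + 1) ^ 2 * (2 * (1 / r) ^ (2 * a) / η ^ (m * a))
        ≤ a * ((8 * (w + 1)) ^ a * exp 1 ^ a) * ((((15 : ℕ) : ℝ) * (m : ℝ)) ^ a) ^ 2 * (2 ^ a) ^ 2
          * (2 * 2 ^ a) ^ 2 * (2 * (4 / δ) ^ (2 * a) / (1 + δ / 4) ^ (m * a)) := by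
          gcongr
          · linarith
      _ = 8 * a * ((460800 * exp 1 * (w + 1) * (m : ℝ) ^ 2 / δ ^ 2) / (1 + δ / 4) ^ m) ^ a := by
          have e1 : (460800 * exp 1 * (w + 1) * (m : ℝ) ^ 2 / δ ^ 2) ^ a =
              (8 * (w + 1)) ^ a * exp 1 ^ a * ((15 * m : ℝ) ^ a) ^ 2 * ((2 : ℝ) ^ a) ^ 2
                * ((2 : ℝ) ^ a) ^ 2 * (4 / δ) ^ (2 * a) := by
            rw [← pow_mul, ← pow_mul, mul_comm a 2, pow_mul, pow_mul, pow_mul, ← mul_pow, ← mul_pow,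
              ← mul_pow, ← mul_pow, ← mul_pow]
            congr 1
            field_simp
            ring
          rw [div_pow (460800 * exp 1 * (w + 1) * (m : ℝ) ^ 2 / δ ^ 2) ((1 + δ / 4) ^ m) a, e1,
            ← pow_mul (1 + δ / 4)]
          push_cast
          ring
      _ ≤ 8 * a * (1 / 4) ^ a := by
          apply mul_le_mul_of_nonneg_left _ (by positivity)
          apply pow_le_pow_left₀ (by positivity)
          rw [div_le_iff₀ hb]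
          have e : 460800 * exp 1 * (w + 1) * (m : ℝ) ^ 2 / δ ^ 2
              = 1 / 4 * (1843200 * exp 1 * (w + 1) * (m : ℝ) ^ 2 / δ ^ 2) := by ring
          rw [e]
          exact mul_le_mul_of_nonneg_left h (by norm_num)
  exact h3

theorem two_pow_ge {a : ℕ} (ha : 8 ≤ a) : 32 * (a : ℝ) ≤ 2 ^ a := by
  induction a, ha using Nat.le_induction with
  | base => norm_num
  | succ n hn ih =>
      have h1 : (8 : ℝ) ≤ n := by exact_mod_cast hn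
      rw [pow_succ]
      push_cast
      linarith

theorem small {a : ℕ} (ha : 8 ≤ a) : 8 * (a : ℝ) * (1 / 4) ^ a ≤ 1 / (4 * 2 ^ a) := by
  have h1 := two_pow_ge ha
  have h2 : (4 : ℝ) ^ a = 2 ^ a * 2 ^ a := by rw [← mul_pow]; norm_num
  rw [one_div_pow, h2, mul_one_div, div_le_div_iff₀ (by positivity) (by positivity)]
  have h3 : (0 : ℝ) < 2 ^ a := by positivity
  nlinarith

theorem term3 {m a w S : ℕ} {δ r η : ℝ} (hδ : 0 < δ) (ha : (10 : ℝ) ^ 8 ≤ a)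
    (hS : S ≤ 2 ^ a) (hr : 0 < r) (hr1 : 1 / r ≤ 4 / δ) (hη : 1 + δ / 4 ≤ η)
    (h : 1843200 * exp 1 * (w + 1) * (m : ℝ) ^ 2 / δ ^ 2 ≤ (1 + δ / 4) ^ m) :
    errA (8 * a * (w + 1)) 15 m a a S r η ≤ 1 / (4 * 2 ^ a) := by
  refine (term3' hδ ha hS hr hr1 hη h).trans (small ?_)
  have h1 : (8 : ℝ) ≤ a := le_trans (by norm_num) ha
  exact_mod_cast h1

theorem term4 {k m a w S : ℕ} {r : ℝ} (ha : (1 : ℝ) ≤ a) (hS : S ≤ 2 ^ a)
    (hm : (10 : ℝ) ^ 12 * 16 ^ w ≤ m) (hk : (10 : ℝ) ^ 12 * m ^ 2 ≤ k) (hr : 0 < r) (hr1 : 1 / r ≤ k) :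
    (S * (15 * m + 1 : ℝ) ^ (8 * a * (w + 1))) ^ (w + 1) *
      ((k : ℝ) ^ (-((8 * a * (w + 1) - (w + 1) * a : ℕ) * m : ℝ) / 2 ^ (2 * w + 3)) *
        (1 / r) ^ (2 * (w + 1) * (8 * a * (w + 1)))) ≤ 1 / k := by
  have hw0 : (0 : ℝ) ≤ w := Nat.cast_nonneg w
  have h16 : (1 : ℝ) ≤ 16 ^ w := one_le_pow₀ (by norm_num)
  have hm1 : (10 : ℝ) ^ 12 ≤ m := le_trans (by nlinarith) hm
  have hk1 : (10 : ℝ) ^ 12 ≤ k := by
    refine le_trans ?_ hk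
    nlinarith
  have hk0 : (0 : ℝ) < k := lt_of_lt_of_le (by norm_num) hk1
  have hk1' : (1 : ℝ) ≤ k := le_trans (by norm_num) hk1
  have h2k : (2 : ℝ) ≤ k := le_trans (by norm_num) hk1
  have h15 : (15 * m + 1 : ℝ) ≤ k := by
    refine le_trans ?_ hk
    nlinarith
  have hS' : (S : ℝ) ≤ k ^ a := by
    calc (S : ℝ) ≤ 2 ^ a := by exact_mod_cast hS
      _ ≤ k ^ a := pow_le_pow_left₀ (by norm_num) h2k a
  set n : ℕ := 8 * a * (w + 1) with hn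
  have hnat : ((n - (w + 1) * a : ℕ) : ℝ) = 7 * a * (w + 1) := by
    have : n - (w + 1) * a = 7 * a * (w + 1) := by
      have : (w + 1) * a = a * (w + 1) := mul_comm _ _
      rw [hn, this, mul_assoc, mul_assoc]
      omega
    rw [this]
    push_cast
    ring
  set X : ℕ := (w + 1) * (a + n) + 2 * (w + 1) * n with hX
  have h1 : (S * (15 * m + 1 : ℝ) ^ n) ^ (w + 1) ≤ k ^ ((w + 1) * (a + n)) := by
    calc (S * (15 * m + 1 : ℝ) ^ n) ^ (w + 1) ≤ (k ^ a * k ^ n) ^ (w + 1) := by gcongr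
      _ = k ^ ((w + 1) * (a + n)) := by rw [← pow_add, ← pow_mul, mul_comm]
  have h2 : (1 / r) ^ (2 * (w + 1) * n) ≤ (k : ℝ) ^ (2 * (w + 1) * n) :=
    pow_le_pow_left₀ (by positivity) hr1 _
  have h3 : (k : ℝ) ^ (-((n - (w + 1) * a : ℕ) * m : ℝ) / 2 ^ (2 * w + 3)) ≤ (k : ℝ) ^ (-((X + 1 : ℕ) : ℝ)) := by
    refine rpow_le_rpow_of_exponent_le hk1' ?_
    rw [hnat, neg_div, neg_le_neg_iff, le_div_iff₀ (by positivity)]
    have hXr : ((X + 1 : ℕ) : ℝ) = (w + 1) * (a + 8 * a * (w + 1)) + 2 * (w + 1) * (8 * a * (w + 1)) + 1 := by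
      rw [hX, hn]
      push_cast
      ring
    have h4 : ((X + 1 : ℕ) : ℝ) ≤ 26 * (a * (w + 1)) * (w + 1) := by
      rw [hXr]
      have : (1 : ℝ) ≤ a * (w + 1) := by nlinarith
      nlinarith [mul_nonneg (by linarith : (0 : ℝ) ≤ a * (w + 1)) hw0]
    have h5 : (w + 1 : ℝ) ≤ 2 ^ w := by exact_mod_cast Nat.lt_two_pow_self (n := w)
    have h6 : (2 : ℝ) ^ (2 * w + 3) = 8 * 4 ^ w := by
      rw [pow_add, pow_mul]
      norm_num
      ring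
    have h7 : (2 : ℝ) ^ w * 4 ^ w ≤ 16 ^ w := by
      rw [← mul_pow]
      exact pow_le_pow_left₀ (by norm_num) (by norm_num) w
    rw [h6]
    have h8 : (w + 1 : ℝ) * 4 ^ w ≤ 16 ^ w :=
      le_trans (mul_le_mul_of_nonneg_right h5 (by positivity)) h7
    have h9 : (208 : ℝ) * ((w + 1) * 4 ^ w) ≤ 7 * m := by
      have h10 : (208 : ℝ) * ((w + 1) * 4 ^ w) ≤ 208 * 16 ^ w := by linarith
      have h11 : (208 : ℝ) * 16 ^ w ≤ 10 ^ 12 * 16 ^ w := by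
        apply mul_le_mul_of_nonneg_right (by norm_num) (by positivity)
      linarith
    calc ((X + 1 : ℕ) : ℝ) * (8 * 4 ^ w) ≤ (26 * (a * (w + 1)) * (w + 1)) * (8 * 4 ^ w) :=
          mul_le_mul_of_nonneg_right h4 (by positivity)
      _ = (a * (w + 1)) * (208 * ((w + 1) * 4 ^ w)) := by ring
      _ ≤ (a * (w + 1)) * (7 * m) := mul_le_mul_of_nonneg_left h9 (by positivity)
      _ = 7 * a * (w + 1) * m := by ring
  calc (S * (15 * m + 1 : ℝ) ^ n) ^ (w + 1) *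
      ((k : ℝ) ^ (-((n - (w + 1) * a : ℕ) * m : ℝ) / 2 ^ (2 * w + 3)) * (1 / r) ^ (2 * (w + 1) * n))
      ≤ k ^ ((w + 1) * (a + n)) * ((k : ℝ) ^ (-((X + 1 : ℕ) : ℝ)) * (k : ℝ) ^ (2 * (w + 1) * n)) := by
        gcongr
    _ = (k : ℝ) ^ X * (k : ℝ) ^ (-((X + 1 : ℕ) : ℝ)) := by
        rw [hX, pow_add]
        ring
    _ = 1 / k := by
        rw [rpow_neg hk0.le, rpow_natCast, pow_succ]
        have : (k : ℝ) ^ X ≠ 0 := (pow_pos hk0 X).ne'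
        field_simp

theorem numbers' : ∃ C : ℝ, 1 ≤ C ∧ ∀ (k m a w L h T S : ℕ) (ε η z : ℝ), 0 < ε → ε ≤ 1 → 0 < z → z ≤ 1 →
    1 ≤ z * 2 ^ a → C ≤ a →
    C ^ (w + 1) / ε ^ 2 ≤ m → C * (a ^ 2 * (w + 1) * m : ℝ) ^ 2 ≤ z ^ 2 * k → L = k ^ (15 * m) →
    h = ⌊ε / (w + 2) / 2 * L⌋₊ → (T : ℝ) ≤ (1 - ε / (w + 2)) * (k * L) → S ≤ 2 ^ a →
    η = 1 + (1 - (T : ℝ) / (k * L) - (h : ℝ) / L) / 2 →
      0 < h ∧ h + 1 ≤ L ∧ 1 ≤ η ∧
      ((a + 1 : ℝ) * ((8 * a * (w + 1) : ℕ) * m)) ^ 2 / k + 2 * 2 ^ (2 * w + 2) / Real.sqrt k +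
        errA (8 * a * (w + 1)) 15 m a a S ((h : ℝ) / L) η +
        (S * (15 * m + 1) ^ (8 * a * (w + 1))) ^ (w + 1) *
          ((k : ℝ) ^ (-((8 * a * (w + 1) - (w + 1) * a : ℕ) * m : ℝ) / 2 ^ (2 * w + 3)) *
            (1 / ((h : ℝ) / L)) ^ (2 * (w + 1) * (8 * a * (w + 1)))) ≤ z := by
  refine ⟨10 ^ 12, by norm_num, ?_⟩
  intro k m a w L h T S ε η z hε hε1 hz hz1 hza ha hm hkz hL hh hT hS hη
  have hw0 : (0 : ℝ) ≤ w := Nat.cast_nonneg w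
  have hw2 : (0 : ℝ) < w + 2 := by linarith
  set δ : ℝ := ε / (w + 2) with hδ
  have hδ0 : 0 < δ := by positivity
  have hδ1 : δ ≤ 1 / 2 := by
    rw [hδ, div_le_div_iff₀ hw2 (by norm_num)]
    linarith
  have ha1 : (1 : ℝ) ≤ a := le_trans (by norm_num) ha
  set q : ℝ := (10 ^ 12) ^ (w + 1) with hq
  have hq16 : (10 : ℝ) ^ 12 * 16 ^ w ≤ q := q_ge' w 16 (by norm_num) (by norm_num)
  have h16 : (1 : ℝ) ≤ 16 ^ w := one_le_pow₀ (by norm_num)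
  have hq1 : (10 : ℝ) ^ 12 ≤ q := le_trans (by nlinarith) hq16
  have hε2 : ε ^ 2 ≤ ε := by nlinarith
  have hmq : q / ε ≤ m := le_trans (div_le_div_of_nonneg_left (by linarith) (by positivity) hε2) hm
  have hmq1 : q ≤ m := le_trans (by rw [le_div_iff₀ hε]; nlinarith) hmq
  have hm1 : (1 : ℝ) ≤ m := by linarith
  have hmn : 1 ≤ m := by exact_mod_cast hm1
  set X : ℝ := a ^ 2 * (w + 1) * m with hX
  have hmm : (m : ℝ) ≤ X := by
    have : (1 : ℝ) ≤ a ^ 2 * (w + 1) := by nlinarith [one_le_pow₀ ha1 (n := 2)]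
    exact le_mul_of_one_le_left (by linarith) this
  have hX1 : 1 ≤ X := hm1.trans hmm
  have hz2 : z ^ 2 ≤ z := by nlinarith
  have hk' : (0 : ℝ) ≤ k := Nat.cast_nonneg k
  have hkz' : 10 ^ 12 * X ^ 2 ≤ z * k := hkz.trans (mul_le_mul_of_nonneg_right hz2 hk')
  have hk : 10 ^ 12 * X ^ 2 ≤ k := hkz'.trans (mul_le_of_le_one_left hk' hz1)
  have hkm : (10 : ℝ) ^ 12 * m ^ 2 ≤ k := by
    refine le_trans ?_ hk
    have : (m : ℝ) ^ 2 ≤ X ^ 2 := pow_le_pow_left₀ (by linarith) hmm 2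
    linarith
  have h4δ : 4 / δ ≤ m := by
    refine le_trans ?_ hmq
    have h1 : 4 / δ = 4 * (w + 2) / ε := by
      rw [hδ]
      field_simp
    rw [h1]
    apply div_le_div_of_nonneg_right _ hε.le
    have h2 : (w : ℝ) + 1 ≤ 2 ^ w := by exact_mod_cast Nat.lt_two_pow_self (n := w)
    have h3 : (2 : ℝ) ^ w ≤ 16 ^ w := pow_le_pow_left₀ (by norm_num) (by norm_num) w
    nlinarith
  have hmk : (m : ℝ) ≤ k := by nlinarith
  have hm2k : 2 * (m : ℝ) ≤ k := by nlinarith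
  have hk1 : (1 : ℝ) ≤ k := by linarith
  have hk0 : (0 : ℝ) < k := by linarith
  have hkL : (k : ℝ) ≤ L := by
    rw [hL]
    push_cast
    exact le_self_pow₀ hk1 (by omega)
  have hL0 : (0 : ℝ) < L := by linarith
  have hLδ : 8 / δ ≤ L := by
    have : 8 / δ = 2 * (4 / δ) := by ring
    rw [this]
    linarith
  have hLδ' : 8 ≤ δ * L := by
    rw [div_le_iff₀ hδ0] at hLδ
    linarith
  have hL4 : (4 : ℝ) ≤ L := by nlinarith
  have hx0 : 0 ≤ δ / 2 * L := by positivity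
  have hh1 : (h : ℝ) ≤ δ / 2 * L := by rw [hh]; exact Nat.floor_le hx0
  have hh2 : δ / 2 * L < h + 1 := by rw [hh]; exact Nat.lt_floor_add_one _
  have hhpos : (0 : ℝ) < h := by nlinarith
  have hhL : (h : ℝ) / L ≤ δ / 2 := by
    rw [div_le_iff₀ hL0]
    exact hh1
  have hhL2 : δ / 4 ≤ (h : ℝ) / L := by
    rw [le_div_iff₀ hL0]
    nlinarith
  have hr0 : (0 : ℝ) < (h : ℝ) / L := by positivity
  have hr1 : 1 / ((h : ℝ) / L) ≤ 4 / δ := by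
    rw [div_le_div_iff₀ hr0 hδ0]
    linarith
  have hTk : (T : ℝ) / (k * L) ≤ 1 - δ := by
    rw [div_le_iff₀ (by positivity)]
    exact hT
  have hη4 : 1 + δ / 4 ≤ η := by
    rw [hη]
    linarith
  refine ⟨by exact_mod_cast hhpos, ?_, by linarith, ?_⟩
  · have : ((h + 1 : ℕ) : ℝ) ≤ (L : ℝ) := by
      push_cast
      nlinarith
    exact_mod_cast this
  · have t1 : ((a + 1 : ℝ) * ((8 * a * (w + 1) : ℕ) * m)) ^ 2 / k ≤ z / 4 := by
      have h1 : (0 : ℝ) ≤ a * (w + 1) * m := by positivity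
      have h2 : (a + 1 : ℝ) * ((8 * a * (w + 1) : ℕ) * m) ≤ 16 * X := by
        rw [hX]
        push_cast
        nlinarith [mul_nonneg (by linarith : (0 : ℝ) ≤ a - 1) h1]
      have h3 : ((a + 1 : ℝ) * ((8 * a * (w + 1) : ℕ) * m)) ^ 2 ≤ (16 * X) ^ 2 :=
        pow_le_pow_left₀ (by positivity) h2 2
      rw [div_le_iff₀ hk0]
      nlinarith
    have t2 : 2 * (2 : ℝ) ^ (2 * w + 2) / Real.sqrt k ≤ z / 4 := by
      have h1 : (10 : ℝ) ^ 6 * X ≤ z * Real.sqrt k := by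
        have h5 : Real.sqrt ((10 ^ 6 * X) ^ 2) ≤ Real.sqrt (z ^ 2 * k) := by
          apply Real.sqrt_le_sqrt
          refine le_trans (le_of_eq ?_) hkz
          ring
        rw [Real.sqrt_sq (by positivity), Real.sqrt_mul (sq_nonneg z), Real.sqrt_sq hz.le] at h5
        exact h5
      have h2 : (2 : ℝ) ^ (2 * w + 2) = 4 * 4 ^ w := by
        rw [pow_add, pow_mul]
        norm_num
        ring
      have h3 : (4 : ℝ) ^ w ≤ 16 ^ w := pow_le_pow_left₀ (by norm_num) (by norm_num) w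
      have h4 : (0 : ℝ) < Real.sqrt k := Real.sqrt_pos.2 hk0
      rw [h2, div_le_iff₀ h4]
      nlinarith
    have t3 := term3 (w := w) (m := m) (S := S) (a := a) hδ0 (le_trans (by norm_num) ha) hS hr0 hr1 hη4
      (key hε hε1 hδ hm)
    have t4 := term4 (k := k) (m := m) (a := a) (w := w) (S := S) (r := (h : ℝ) / L) ha1 hS
      (hq16.trans hmq1) hkm hr0 (hr1.trans (h4δ.trans hmk))
    have t3' : 1 / (4 * (2 : ℝ) ^ a) ≤ z / 4 := by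
      rw [div_le_div_iff₀ (by positivity) (by norm_num)]
      linarith
    have t4' : 1 / (k : ℝ) ≤ z / 4 := by
      rw [div_le_div_iff₀ hk0 (by norm_num)]
      nlinarith
    linarith

theorem numbers : ∃ C : ℝ, 1 ≤ C ∧ ∀ (k m a w L h T S : ℕ) (ε η : ℝ), 0 < ε → ε ≤ 1 → C ≤ a →
    C ^ (w + 1) / ε ^ 2 ≤ m → C * (a ^ 2 * (w + 1) * m : ℝ) ^ 2 ≤ k → L = k ^ (15 * m) →
    h = ⌊ε / (w + 2) / 2 * L⌋₊ → (T : ℝ) ≤ (1 - ε / (w + 2)) * (k * L) → S ≤ 2 ^ a →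
    η = 1 + (1 - (T : ℝ) / (k * L) - (h : ℝ) / L) / 2 →
      0 < h ∧ h + 1 ≤ L ∧ 1 ≤ η ∧
      ((a + 1 : ℝ) * ((8 * a * (w + 1) : ℕ) * m)) ^ 2 / k + 2 * 2 ^ (2 * w + 2) / Real.sqrt k +
        errA (8 * a * (w + 1)) 15 m a a S ((h : ℝ) / L) η +
        (S * (15 * m + 1) ^ (8 * a * (w + 1))) ^ (w + 1) *
          ((k : ℝ) ^ (-((8 * a * (w + 1) - (w + 1) * a : ℕ) * m : ℝ) / 2 ^ (2 * w + 3)) *
            (1 / ((h : ℝ) / L)) ^ (2 * (w + 1) * (8 * a * (w + 1)))) ≤ 1 / 100 := by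
  obtain ⟨C, hC1, hC⟩ := numbers'
  refine ⟨C * 10 ^ 4, by linarith, ?_⟩
  intro k m a w L h T S ε η hε hε1 ha hm hk hL hh hT hS hη
  have hCa : C ≤ a := le_trans (by linarith) ha
  have ha8 : 8 ≤ a := by
    have : (8 : ℝ) ≤ a := le_trans (by linarith) ha
    exact_mod_cast this
  have h2a := two_pow_ge ha8
  have ha4 : (10 : ℝ) ^ 4 ≤ a := le_trans (by linarith) ha
  refine hC k m a w L h T S ε η (1 / 100) hε hε1 (by norm_num) (by norm_num) (by linarith) hCa ?_ ?_ hL hh hT hS hη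
  · refine le_trans ?_ hm
    exact div_le_div_of_nonneg_right (pow_le_pow_left₀ (by linarith) (by linarith) _) (sq_nonneg _)
  · nlinarith [sq_nonneg ((a : ℝ) ^ 2 * (w + 1) * m)]

end Pool.Agent.Helper97.PB
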